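import Pool.Agent.Lib_helper78.PCL.B
import Pool.Agent.Lib_helper61.PSL.Prio

/-!
# Search of witnesses with an oracle that is `≤_T^P`-hard for `NP` (MP_5d94c0_lc)
-/

set_option autoImplicit false
set_option linter.unusedSectionVars false

namespace Pool.Agent.PCL

open Pool.Agent.CK Pool.Agent.CKP Pool.Agent.PSL

variable {O P : Lang} {γ : Type} [ToD γ]

/-- `y` is a witness for `x` -/
def wit (O : Lang) (d : Cmd) (k : ℕ) (x y : List Bool) : Bool :=
  decide (y.length ≤ (x.length + 2) ^ k) &&
    accU O (cmdD d) x y (List.replicate ((x.length + 2) ^ k) ())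

theorem wit_iff {d : Cmd} {k : ℕ} {x y : List Bool} : wit O d k x y = true ↔
    y.length ≤ (x.length + 2) ^ k ∧ Accepts O d x y ((x.length + 2) ^ k) := by
  unfold wit
  rw [Bool.and_eq_true, decide_eq_true_eq, accU_iff, List.length_replicate]

theorem ptime_accP (hO : PTime P O) (d : Cmd) {x y : γ → List Bool} {N : γ → List Unit}
    (hx : PTime P x) (hy : PTime P y) (hN : PTime P N) :
    PTime P (fun a => accU O (cmdD d) (x a) (y a) (N a)) := by
  have hrun := ptime_runG (O := P) (γ := γ) (P := fun _ => O) (hO.comp PTime.id.snd)
    (PTime.const (cmdD d)) (PTime.cons hx (PTime.cons hy (PTime.const []))) hN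
  unfold accU outU
  exact (PTime.isNil hrun.fst).and (PTime.headD (PTime.headD hrun.snd (PTime.const []))
    (PTime.const false))

theorem ptime_wit (hO : PTime P O) (d : Cmd) (k : ℕ) {x y : γ → List Bool} (hx : PTime P x)
    (hy : PTime P y) : PTime P (fun a => wit O d k (x a) (y a)) := by
  unfold wit
  have hN := (UPoly.tb (O := P) k).comp hx
  refine PTime.and ?_ (ptime_accP hO d hx hy hN)
  exact ((PTime.length hy).nat_le (PTime.length hN)).of_eq fun a => by
    rw [List.length_replicate]

/-! ### the search -/

open Classical in
/-- `u` can be extended to a witness for `x` -/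
noncomputable def preL (O : Lang) (d : Cmd) (k : ℕ) : Lang := fun w =>
  decide (∃ v, wit O d k (toBits (dec w).car) (toBits (dec w).cdr ++ v) = true)

theorem preL_iff {d : Cmd} {k : ℕ} {w : List Bool} : preL O d k w = true ↔
    ∃ v, wit O d k (toBits (dec w).car) (toBits (dec w).cdr ++ v) = true := by
  classical
  unfold preL
  rw [decide_eq_true_eq]

/-- the code of a pair -/
def pc (x u : List Bool) : List Bool := (D.cons (toD x) (toD u)).enc

theorem preL_pc {d : Cmd} {k : ℕ} {x u : List Bool} :
    preL O d k (pc x u) = true ↔ ∃ v, wit O d k x (u ++ v) = true := by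
  have hdec : dec (pc x u) = D.cons (toD x) (toD u) := by
    unfold pc
    rw [dec_enc]
  have hx : toBits (dec (pc x u)).car = x := by rw [hdec]; exact toBits_toD x
  have hu : toBits (dec (pc x u)).cdr = u := by rw [hdec]; exact toBits_toD u
  rw [preL_iff, hx, hu]

theorem toBits_length (w : List Bool) : (toBits (dec w).car).length ≤ 3 * w.length + 1 := by
  have h1 := size_dec_le w
  have h2 : (toBits (dec w).car).length = (toList (dec w).car).length := by
    unfold toBits
    rw [List.length_map]
  have h3 : ∀ d : D, (toList d).length ≤ d.size := by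
    intro d
    have := length_le_sz (toList d)
    have h4 := toD_toList d
    unfold sz at this
    rw [h4] at this
    exact this
  have h5 : (dec w).car.size ≤ (dec w).size := by
    cases dec w with
    | nil => exact le_rfl
    | cons a b => show a.size ≤ a.size + b.size + 1; omega
  have h6 := h3 (dec w).car
  omega

theorem preL_inNP (d : Cmd) (k : ℕ) : InNP O (preL O d k) := by
  have hx : PTime O (fun p : List Bool × List Bool => toBits (dec p.1).car) :=
    (PTime.dec PTime.id.fst).car.toBits
  have hu : PTime O (fun p : List Bool × List Bool => toBits (dec p.1).cdr) :=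
    (PTime.dec PTime.id.fst).cdr.toBits
  have hO : PTime O O := PTime.ask (O := O) PTime.id
  have hV := ptime_wit hO d k hx (hu.append PTime.id.snd)
  refine inNP_of hV (B := fun n => (3 * n + 1 + 2) ^ k)
    ((((((UPoly.const 3).mul UPoly.id).add (UPoly.const 1)).add (UPoly.const 2))).pow k) ?_ ?_
  · intro w hw
    obtain ⟨v, hv⟩ := preL_iff.1 hw
    refine ⟨v, ?_, hv⟩
    have h1 := (wit_iff.1 hv).1
    rw [List.length_append] at h1
    have h2 : ((toBits (dec w).car).length + 2) ^ k ≤ (3 * w.length + 1 + 2) ^ k :=
      Nat.pow_le_pow_left (by have := toBits_length w; omega) k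
    omega
  · intro w v hv
    exact preL_iff.2 ⟨v, hv⟩

/-- one step of the search -/
def wstep (O : Lang) (d : Cmd) (k : ℕ) (Q : Lang) (x u : List Bool) : List Bool :=
  if wit O d k x u = true then u
  else if Q (pc x (u ++ [false])) = true then u ++ [false] else u ++ [true]

/-- the search of a witness -/
def wsearch (O : Lang) (d : Cmd) (k : ℕ) (Q : Lang) (x : List Bool) : List Bool :=
  (List.replicate ((x.length + 2) ^ k) ()).foldl (fun u _ => wstep O d k Q x u) []

theorem wsearch_spec {d : Cmd} {k : ℕ} {x : List Bool}
    (h : ∃ y, wit O d k x y = true) : wit O d k x (wsearch O d k (preL O d k) x) = true := by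
  set N := (x.length + 2) ^ k with hN
  have key : ∀ (j : ℕ) (u : List Bool), (∃ v, wit O d k x (u ++ v) = true) →
      N ≤ u.length + j →
      wit O d k x ((List.replicate j ()).foldl
        (fun u _ => wstep O d k (preL O d k) x u) u) = true := by
    intro j
    induction j with
    | zero =>
      intro u ⟨v, hv⟩ hj
      have h1 := (wit_iff.1 hv).1
      rw [List.length_append] at h1
      have : v = [] := List.length_eq_zero_iff.1 (by omega)
      rw [this, List.append_nil] at hv
      exact hv
    | succ j ih =>
      intro u hu hj
      rw [List.replicate_succ, List.foldl_cons]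
      by_cases h1 : wit O d k x u = true
      · have h2 : wstep O d k (preL O d k) x u = u := by
          unfold wstep
          rw [if_pos h1]
        rw [h2]
        -- the search stays at `u`
        have h3 : ∀ l : List Unit, l.foldl (fun u _ => wstep O d k (preL O d k) x u) u = u := by
          intro l
          induction l with
          | nil => rfl
          | cons a l ih => rw [List.foldl_cons, h2, ih]
        rw [h3]
        exact h1
      · apply ih
        · by_cases h2 : preL O d k (pc x (u ++ [false])) = true
          · have h3 : wstep O d k (preL O d k) x u = u ++ [false] := by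
              unfold wstep
              rw [if_neg h1, if_pos h2]
            rw [h3]
            exact preL_pc.1 h2
          · have h3 : wstep O d k (preL O d k) x u = u ++ [true] := by
              unfold wstep
              rw [if_neg h1, if_neg h2]
            rw [h3]
            obtain ⟨v, hv⟩ := hu
            match v, hv with
            | [], hv => rw [List.append_nil] at hv; exact absurd hv h1
            | false :: v, hv =>
              exact absurd (preL_pc.2 ⟨v, by rw [List.append_assoc]; exact hv⟩) h2
            | true :: v, hv => exact ⟨v, by rw [List.append_assoc]; exact hv⟩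
        · have h2 : u.length + 1 ≤ (wstep O d k (preL O d k) x u).length := by
            unfold wstep
            rw [if_neg h1]
            split_ifs <;> simp
          omega
  obtain ⟨y, hy⟩ := h
  exact key N [] ⟨y, hy⟩ (by simp)

theorem ptime_wsearch {Q : Lang} (hO : PTime P O) (hQ : PTime P Q) (d : Cmd) (k : ℕ) :
    PTime P (wsearch O d k Q) := by
  unfold wsearch
  have hu : PTime P (fun p : List Bool × List Bool × Unit => p.2.1) := PTime.id.snd.fst
  have hx : PTime P (fun p : List Bool × List Bool × Unit => p.1) := PTime.id.fst
  have hs : PTime P (fun p : List Bool × List Bool × Unit => wstep O d k Q p.1 p.2.1) := by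
    unfold wstep pc
    refine PTime.ite (ptime_wit hO d k hx hu) hu (PTime.ite (hQ.comp ?_)
      (hu.append (PTime.const _)) (hu.append (PTime.const _)))
    exact PTime.enc (hx.code.consD (hu.append (PTime.const [false])).code)
  refine PTime.foldl_add (l := fun x : List Bool => List.replicate ((x.length + 2) ^ k) ())
    (i := fun _ => ([] : List Bool)) (s := fun x u _ => wstep O d k Q x u)
    ((UPoly.tb k).comp PTime.id) (PTime.const _) hs 4 ?_
  intro x b a _
  have h4 : (4 : Polynomial ℕ).eval (sz x) = 4 := by
    have : (4 : Polynomial ℕ) = Polynomial.C 4 := rfl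
    rw [this, Polynomial.eval_C]
  rw [h4]
  unfold wstep
  split_ifs
  · omega
  · rw [sz_snoc, sz_false]
    omega
  · rw [sz_snoc, sz_true]

/-- A program that finds witnesses with the help of a hard oracle. -/
theorem exists_search {S : Lang} (hH : ∀ A, InNP O A → TuringReducible O A S) (d : Cmd)
    (k : ℕ) : ∃ (c : Cmd) (l : ℕ), ∀ x : List Bool, (∃ y, wit O d k x y = true) →
      wit O d k x (outU (join O S) (cmdD c) x [] (List.replicate ((x.length + 2) ^ l) ())) =
        true := by
  have hQ : PTime (join O S) (preL O d k) := ptime_of_inP (hH _ (preL_inNP d k))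
  have hO : PTime (join O S) O := (PTime.ask (O := O) PTime.id).lift
  obtain ⟨c, l, h⟩ := inFP_of (ptime_wsearch (P := join O S) hO hQ d k)
  refine ⟨c, l, fun x hx => ?_⟩
  rw [outU_eq, List.length_replicate, (h x).2]
  exact wsearch_spec hx

end Pool.Agent.PCL
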