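import Pool.Agent.Lib_helper74.CKF.Defs

/-!
# Definitions for MP_5d94c0_lc: selectors, errors, uniform families
-/

set_option autoImplicit false

namespace Pool.Agent.PCL

open Pool.Agent.CK

/-- `S` is p-selective relative to `P`: a program with oracle `P` computes a selector for `S` in
polynomial time (inputs `x` and `y` on the stacks `0` and `1`, output on stack `0`). -/
def PSelective (P S : Lang) : Prop :=
  ∃ (c : Cmd) (k : ℕ), ∀ x y : List Bool,
    Halts P c x y ((x.length + y.length + 2) ^ k) ∧
      ∃ z : List Bool, (run P c x y ((x.length + y.length + 2) ^ k)).2 0 = z ∧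
        (z = x ∨ z = y) ∧ ((S x = true ∨ S y = true) → S z = true)

/-- `S` is `≤_T^P`-hard for `NP`, relative to `O`. -/
def TuringHard (O S : Lang) : Prop := ∀ D, InNP O D → TuringReducible O D S

/-- the number of strings of length at most `n` on which `S` and `E` differ -/
noncomputable def errors (S E : Lang) (n : ℕ) : ℕ :=
  Nat.card {y : List Bool // y.length ≤ n ∧ S y ≠ E y}

/-- The symmetric difference of `S` and `E` is sparse. -/
def SparseDifference (S E : Lang) : Prop := ∃ k : ℕ, ∀ n : ℕ, errors S E n ≤ (n + 2) ^ k

/-- The languages `E i` are decided by one program with oracle `P` in time polynomial in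
`|y| + i` (inputs `y` and `1^i` on the stacks `0` and `1`). -/
def UniformP (P : Lang) (E : ℕ → Lang) : Prop :=
  ∃ (c : Cmd) (k : ℕ), ∀ (i : ℕ) (y : List Bool),
    Halts P c y (List.replicate i true) ((y.length + i + 2) ^ k) ∧
      (Accepts P c y (List.replicate i true) ((y.length + i + 2) ^ k) ↔ E i y = true)

end Pool.Agent.PCL
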