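import Pool.Agent.Lib_helper78.PCL.C
import Pool.Agent.Lib_helper78.PCL.Defs

/-!
# The algorithm (MP_5d94c0_lc)
-/

set_option autoImplicit false
set_option linter.unusedSectionVars false

namespace Pool.Agent.PCL

open Pool.Agent.CK Pool.Agent.CKP Pool.Agent.PSL

variable {O P : Lang} {γ : Type} [ToD γ]

/-- the joined oracle with a data dependent second part -/
theorem ptime_joinP (hO : PTime P O) {B : γ → Lang}
    (hB : PTime P (fun p : γ × List Bool => B p.1 p.2)) :
    PTime P (fun p : γ × List Bool => join O (B p.1) p.2) := by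
  have h := PTime.lcase (O := P) (l := fun p : γ × List Bool => p.2) (n := fun _ => false)
    (c := fun p a t => if a = true then B p.1 t else O t) PTime.id.snd (PTime.const false)
    (PTime.ite PTime.id.snd.fst (hB.comp (PTime.id.fst.fst.pair PTime.id.snd.snd))
      (hO.comp PTime.id.snd.snd))
  refine h.of_eq fun p => ?_
  obtain ⟨g, w⟩ := p
  match w with
  | [] => rfl
  | false :: w => rfl
  | true :: w => rfl

section

variable (O) (f : List Bool → List Bool → List Bool) (E : ℕ → Lang) (c : Cmd) (l : ℕ)

/-- the strings asked by the program `c` on input `x`, with oracle `O ⊕ B` -/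
def askB (x : List Bool) (B : Lang) : List (List Bool) :=
  askU (join O B) (cmdD c) x (List.replicate ((x.length + 2) ^ l) ())

/-- the output of the program `c` on input `x`, with oracle `O ⊕ B` -/
def outB (x : List Bool) (B : Lang) : List Bool :=
  outU (join O B) (cmdD c) x [] (List.replicate ((x.length + 2) ^ l) ())

/-- one round, with unary numbers -/
def rndU (x : List Bool) (M : List Unit) (A : List (List Bool)) : List (List Bool) :=
  A ++ (rangeU (() :: M)).flatMap fun u =>
    (cands (E u.length) M.length (srt f A)).flatMap fun q => askB O c l x (orc (E u.length) q)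

/-- all rounds -/
def allU (x : List Bool) (M : List Unit) : List (List Bool) :=
  (() :: M).foldl (fun A _ => rndU O f E c l x M A) []

/-- the algorithm -/
def algo (d : Cmd) (k : ℕ) (p : List Bool × List Unit) : Bool :=
  (rangeU (() :: p.2)).any fun u =>
    (cands (E u.length) p.2.length (srt f (allU O f E c l p.1 p.2))).any fun q =>
      wit O d k p.1 (outB O c l p.1 (orc (E u.length) q))

end

variable {f : List Bool → List Bool → List Bool} {E : ℕ → Lang} {c : Cmd} {l : ℕ}

theorem unary_eq (M : List Unit) : List.replicate M.length () = M := by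
  induction M with
  | nil => rfl
  | cons a t ih => rw [List.length_cons, List.replicate_succ, ih]

theorem rangeU_cons (M : List Unit) :
    rangeU (() :: M) = (List.range (M.length + 1)).map fun i => List.replicate i () := by
  rw [← rangeU_replicate, List.replicate_succ, unary_eq M]

theorem rndU_eq (x : List Bool) (M : List Unit) (A : List (List Bool)) :
    rndU O f E c l x M A = rnd f E (askB O c l x) M.length A := by
  unfold rndU rnd
  rw [rangeU_cons]
  congr 1
  rw [List.flatMap_map]
  simp

theorem allU_eq (x : List Bool) (M : List Unit) :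
    allU O f E c l x M = (rnd f E (askB O c l x) M.length)^[M.length + 1] [] := by
  have h : ∀ (L : List Unit) (A : List (List Bool)),
      L.foldl (fun A _ => rndU O f E c l x M A) A =
        (rnd f E (askB O c l x) M.length)^[L.length] A := by
    intro L
    induction L with
    | nil => intro A; rfl
    | cons a t ih =>
      intro A
      rw [List.foldl_cons, ih, List.length_cons, Function.iterate_succ_apply, rndU_eq]
  unfold allU
  rw [h, List.length_cons]

theorem askB_congr {x : List Bool} {B B' : Lang} (h : ∀ y ∈ askB O c l x B, B y = B' y) :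
    askB O c l x B' = askB O c l x B := askU_congr h

theorem outB_congr {x : List Bool} {B B' : Lang} (h : ∀ y ∈ askB O c l x B, B y = B' y) :
    outB O c l x B' = outB O c l x B := by
  unfold outB outU
  rw [runU_congr h _ le_rfl]

/-- the bound for the length of the strings asked -/
theorem askB_len {x : List Bool} {B : Lang} : ∀ y ∈ askB O c l x B,
    y.length ≤ kB (cmdD c) x ((x.length + 2) ^ l) := by
  intro y hy
  exact (length_le_sz y).trans (askU_len y hy)

theorem card_le_of_errors {S E : Lang} {n m : ℕ} (h : errors S E n ≤ m)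
    (T : Finset (List Bool)) (hT : ∀ y ∈ T, y.length ≤ n ∧ S y ≠ E y) : T.card ≤ m := by
  refine le_trans ?_ h
  unfold errors
  have : Finite {y : List Bool // y.length ≤ n ∧ S y ≠ E y} :=
    Set.Finite.subset (List.finite_length_le Bool n) fun y hy => hy.1
  have h1 : Nat.card T ≤ Nat.card {y : List Bool // y.length ≤ n ∧ S y ≠ E y} :=
    Nat.card_le_card_of_injective (fun t : T => ⟨t.1, hT t.1 t.2⟩) (by
      intro a b hab
      apply Subtype.ext
      exact congrArg (fun z : {y : List Bool // y.length ≤ n ∧ S y ≠ E y} => z.1) hab)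
  rwa [Nat.card_eq_fintype_card, Fintype.card_coe] at h1

/-- The algorithm is correct. -/
theorem algo_iff {S : Lang} (hf : Sel f S) {d : Cmd} {k : ℕ} {x : List Bool} {M : List Unit}
    (hc : (∃ y, wit O d k x y = true) → wit O d k x (outB O c l x S) = true) {n : ℕ}
    (hn : kB (cmdD c) x ((x.length + 2) ^ l) ≤ n) {i : ℕ} (hi : i ≤ M.length)
    (hE : errors S (E i) n ≤ M.length) :
    algo O f E c l d k (x, M) = true ↔ ∃ y, wit O d k x y = true := by
  unfold algo
  constructor
  · intro h
    rw [List.any_eq_true] at h
    obtain ⟨u, _, h⟩ := h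
    rw [List.any_eq_true] at h
    obtain ⟨q, _, h⟩ := h
    exact ⟨_, h⟩
  · intro h
    obtain ⟨q, hq, hq2⟩ := rounds (f := f) (S := S) (E := E) (ask := askB O c l x)
      (m := M.length) (n := n) (i := i) hf (card_le_of_errors hE) hi
      (fun B y hy => (askB_len y hy).trans hn) (fun B B' hBB => askB_congr hBB)
    rw [List.any_eq_true]
    refine ⟨List.replicate i (), ?_, ?_⟩
    · rw [rangeU_cons, List.mem_map]
      exact ⟨i, List.mem_range.2 (Nat.lt_succ_of_le hi), rfl⟩
    · rw [List.any_eq_true, List.length_replicate]
      refine ⟨q, ?_, ?_⟩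
      · show q ∈ cands (E i) M.length (srt f (allU O f E c l x M))
        rw [allU_eq]
        exact hq
      · show wit O d k x (outB O c l x (orc (E i) q)) = true
        have h1 : outB O c l x (orc (E i) q) = outB O c l x S :=
          outB_congr fun y hy => (hq2 y hy).symm
        rw [h1]
        exact hc h

/-! ### polynomial time -/

theorem ptime_askB (hO : PTime P O) {B : γ → Lang}
    (hB : PTime P (fun p : γ × List Bool => B p.1 p.2)) {x : γ → List Bool} (hx : PTime P x) :
    PTime P (fun a => askB O c l (x a) (B a)) :=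
  ptime_askU (Q := fun a => join O (B a)) (ptime_joinP hO hB) (cmdD c) hx
    ((UPoly.tb l).comp hx)

theorem ptime_outB (hO : PTime P O) {B : γ → Lang}
    (hB : PTime P (fun p : γ × List Bool => B p.1 p.2)) {x : γ → List Bool} (hx : PTime P x) :
    PTime P (fun a => outB O c l (x a) (B a)) :=
  ptime_outG (Q := fun a => join O (B a)) (ptime_joinP hO hB) (cmdD c) hx
    ((UPoly.tb l).comp hx)

theorem ptime_rndU (hO : PTime P O) (hf : PTime P (fun p : List Bool × List Bool => f p.1 p.2))
    (hE : PTime P (fun p : List Unit × List Bool => E p.1.length p.2)) :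
    PTime P (fun p : (List Bool × List Unit) × List (List Bool) × Unit =>
      rndU O f E c l p.1.1 p.1.2 p.2.1) := by
  unfold rndU
  have hM : PTime P (fun p : (List Bool × List Unit) × List (List Bool) × Unit => p.1.2) :=
    PTime.id.fst.snd
  have hA : PTime P (fun p : (List Bool × List Unit) × List (List Bool) × Unit => p.2.1) :=
    PTime.id.snd.fst
  refine PTime.append hA ?_
  refine PTime.flatMap
    (l := fun p : (List Bool × List Unit) × List (List Bool) × Unit => rangeU (() :: p.1.2))
    (f := fun p u => (cands (E u.length) p.1.2.length (srt f p.2.1)).flatMap fun q =>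
      askB O c l p.1.1 (orc (E u.length) q)) (PTime.rangeU (PTime.cons (PTime.const ()) hM)) ?_
  refine PTime.flatMap
    (l := fun p : ((List Bool × List Unit) × List (List Bool) × Unit) × List Unit =>
      cands (E p.2.length) p.1.1.2.length (srt f p.1.2.1))
    (f := fun p q => askB O c l p.1.1.1 (orc (E p.2.length) q)) ?_ ?_
  · exact ptime_cands (E := fun p : ((List Bool × List Unit) × List (List Bool) × Unit) ×
      List Unit => E p.2.length) (hE.comp (PTime.id.fst.snd.pair PTime.id.snd))
      (PTime.id.fst.fst.snd) (ptime_srt hf PTime.id.fst.snd.fst)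
  · refine ptime_askB hO (B := fun p : (((List Bool × List Unit) × List (List Bool) × Unit) ×
      List Unit) × (List (List Bool) × List (List Bool)) => orc (E p.1.2.length) p.2) ?_
      PTime.id.fst.fst.fst.fst
    exact ptime_orc (E := fun p : (((List Bool × List Unit) × List (List Bool) × Unit) ×
      List Unit) × (List (List Bool) × List (List Bool)) => E p.1.2.length)
      (hE.comp (PTime.id.fst.fst.snd.pair PTime.id.snd)) PTime.id.snd

/-- the growth in one round -/
theorem sz_rndU (x : List Bool) (M : List Unit) (A : List (List Bool)) :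
    sz (rndU O f E c l x M A) ≤ sz A + ((M.length + 1) *
      ((2 * M.length + 1) * ((x.length + 2) ^ l * (kB (cmdD c) x ((x.length + 2) ^ l) + 2) + 1) +
        1) + 1) := by
  have hsz : ∀ l r : List (List Bool), sz (l ++ r) ≤ sz l + sz r := by
    intro l r
    induction l with
    | nil => simp
    | cons a t ih => rw [List.cons_append, sz_cons, sz_cons]; omega
  unfold rndU
  refine (hsz _ _).trans ?_
  apply Nat.add_le_add_left
  refine (sz_flatMap_le (b := (2 * M.length + 1) *
    ((x.length + 2) ^ l * (kB (cmdD c) x ((x.length + 2) ^ l) + 2) + 1) + 1) ?_).trans ?_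
  · intro u _
    refine (sz_flatMap_le
      (b := (x.length + 2) ^ l * (kB (cmdD c) x ((x.length + 2) ^ l) + 2) + 1) ?_).trans ?_
    · intro q _
      exact sz_askU
    · have := Nat.mul_le_mul_right
        ((x.length + 2) ^ l * (kB (cmdD c) x ((x.length + 2) ^ l) + 2) + 1)
        (cands_length (E u.length) M.length (srt f A))
      omega
  · rw [rangeU_cons, List.length_map, List.length_range]

theorem sz_two {x : List Bool} {M : List Unit} :
    x.length ≤ sz (x, M) ∧ M.length ≤ sz (x, M) ∧ sz x ≤ sz (x, M) := by
  have h1 := length_le_sz x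
  have h2 := length_le_sz M
  rw [sz_pair]
  omega

theorem ptime_allU (hO : PTime P O) (hf : PTime P (fun p : List Bool × List Bool => f p.1 p.2))
    (hE : PTime P (fun p : List Unit × List Bool => E p.1.length p.2)) :
    PTime P (fun p : List Bool × List Unit => allU O f E c l p.1 p.2) := by
  unfold allU
  set X : Polynomial ℕ := Polynomial.X with hX
  set K : Polynomial ℕ := X + Polynomial.C 4 + (X + Polynomial.C 2) ^ l *
    Polynomial.C (2 * sz (cmdD c) + 8) with hK
  refine PTime.foldl_add (l := fun p : List Bool × List Unit => () :: p.2)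
    (i := fun _ => ([] : List (List Bool))) (s := fun p A _ => rndU O f E c l p.1 p.2 A)
    (PTime.cons (PTime.const ()) PTime.id.snd) (PTime.const _) (ptime_rndU hO hf hE)
    ((X + Polynomial.C 1) * ((Polynomial.C 2 * X + Polynomial.C 1) *
      ((X + Polynomial.C 2) ^ l * (K + Polynomial.C 2) + Polynomial.C 1) + Polynomial.C 1) +
      Polynomial.C 1) ?_
  rintro ⟨x, M⟩ b a _
  refine (sz_rndU x M b).trans ?_
  apply Nat.add_le_add_left
  obtain ⟨h1, h2, h3⟩ := sz_two (x := x) (M := M)
  set s := sz (x, M) with hs
  have h4 : (x.length + 2) ^ l ≤ (s + 2) ^ l := Nat.pow_le_pow_left (by omega) l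
  have h5 : kB (cmdD c) x ((x.length + 2) ^ l) ≤
      s + 4 + (s + 2) ^ l * (2 * sz (cmdD c) + 8) := by
    unfold kB
    have := Nat.mul_le_mul_right (2 * sz (cmdD c) + 8) h4
    omega
  simp only [hK, hX, Polynomial.eval_add, Polynomial.eval_mul, Polynomial.eval_pow,
    Polynomial.eval_X, Polynomial.eval_C]
  gcongr

theorem ptime_algo (hO : PTime P O) (hf : PTime P (fun p : List Bool × List Bool => f p.1 p.2))
    (hE : PTime P (fun p : List Unit × List Bool => E p.1.length p.2)) (d : Cmd) (k : ℕ) :
    PTime P (algo O f E c l d k) := by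
  unfold algo
  refine PTime.any (l := fun p : List Bool × List Unit => rangeU (() :: p.2))
    (f := fun p u => (cands (E u.length) p.2.length (srt f (allU O f E c l p.1 p.2))).any fun q =>
      wit O d k p.1 (outB O c l p.1 (orc (E u.length) q)))
    (PTime.rangeU (PTime.cons (PTime.const ()) PTime.id.snd)) ?_
  refine PTime.any
    (l := fun p : (List Bool × List Unit) × List Unit =>
      cands (E p.2.length) p.1.2.length (srt f (allU O f E c l p.1.1 p.1.2)))
    (f := fun p q => wit O d k p.1.1 (outB O c l p.1.1 (orc (E p.2.length) q))) ?_ ?_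
  · exact ptime_cands (E := fun p : (List Bool × List Unit) × List Unit => E p.2.length)
      (hE.comp (PTime.id.fst.snd.pair PTime.id.snd)) PTime.id.fst.snd
      (ptime_srt hf ((ptime_allU hO hf hE).comp PTime.id.fst))
  · refine ptime_wit hO d k PTime.id.fst.fst.fst ?_
    refine ptime_outB hO (B := fun p : ((List Bool × List Unit) × List Unit) ×
      (List (List Bool) × List (List Bool)) => orc (E p.1.2.length) p.2) ?_ PTime.id.fst.fst.fst
    exact ptime_orc (E := fun p : ((List Bool × List Unit) × List Unit) ×
      (List (List Bool) × List (List Bool)) => E p.1.2.length)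
      (hE.comp (PTime.id.fst.fst.snd.pair PTime.id.snd)) PTime.id.snd

/-! ### selectors and families -/

theorem selector (hO : PTime P O) {S : Lang} (h : PSelective O S) :
    ∃ f : List Bool → List Bool → List Bool,
      PTime P (fun p : List Bool × List Bool => f p.1 p.2) ∧ Sel f S := by
  obtain ⟨c, k, h⟩ := h
  refine ⟨fun x y => (run O c x y ((x.length + y.length + 2) ^ k)).2 0, ?_, ?_⟩
  · have hN := (UPoly.tb (O := P) k).comp
      ((PTime.id (α := List Bool × List Bool)).fst.append PTime.id.snd)
    have hrun := ptime_runG (O := P) (γ := List Bool × List Bool) (P := fun _ => O)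
      (hO.comp PTime.id.snd) (PTime.const (cmdD c))
      (PTime.cons PTime.id.fst (PTime.cons PTime.id.snd (PTime.const []))) hN
    refine (PTime.headD hrun.snd (PTime.const [])).of_eq fun p => ?_
    have h1 := outU_eq (O := O) c p.1 p.2 (List.replicate (((p.1 ++ p.2).length + 2) ^ k) ())
    rw [List.length_replicate, List.length_append] at h1
    unfold outU at h1
    rw [List.length_append]
    exact h1
  · intro x y
    obtain ⟨_, z, hz, h1, h2⟩ := h x y
    simp only [hz]
    exact ⟨h1, h2⟩

theorem family (hE : UniformP P E) :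
    PTime P (fun p : List Unit × List Bool => E p.1.length p.2) := by
  obtain ⟨c, k, h⟩ := hE
  have h1 : PTime P (fun p : List Unit × List Bool => p.1.map fun _ => true) :=
    PTime.map (f := fun _ _ => true) PTime.id.fst (PTime.const true)
  have h2 : PTime P (fun p : List Unit × List Bool => p.2) := PTime.id.snd
  have hN := (UPoly.tb (O := P) k).comp (h2.append h1)
  refine (PTime.accU (PTime.const (cmdD c)) h2 h1 hN).of_eq fun p => ?_
  have h3 : (p.1.map fun _ => true) = List.replicate p.1.length true := by
    rw [List.map_const']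
  rw [h3, Bool.eq_iff_iff, accU_iff, List.length_replicate, List.length_append,
    List.length_replicate]
  exact (h p.1.length p.2).2

/-- the exponent for the length of the strings asked -/
theorem exists_len (c : Cmd) (l : ℕ) : ∃ e, ∀ x : List Bool,
    kB (cmdD c) x ((x.length + 2) ^ l) ≤ (x.length + 2) ^ e := by
  obtain ⟨e, he⟩ := exists_pow (Polynomial.C 4 * Polynomial.X + Polynomial.C 1 + Polynomial.C 4 +
    (Polynomial.X + Polynomial.C 2) ^ l * Polynomial.C (2 * sz (cmdD c) + 8))
  refine ⟨e, fun x => le_trans ?_ (he x.length)⟩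
  have h1 : sz x ≤ 4 * x.length + 1 := size_bits x
  simp only [Polynomial.eval_add, Polynomial.eval_mul, Polynomial.eval_pow, Polynomial.eval_X,
    Polynomial.eval_C]
  unfold kB
  omega

theorem NE_run_stable {c : Cmd} {x y : List Bool} {t T : ℕ} (h : Halts P c x y t)
    (hT : t ≤ T) : run P c x y T = run P c x y t := by
  obtain ⟨s, rfl⟩ := Nat.exists_eq_add_of_le hT
  unfold Halts run at h
  unfold run
  rw [Nat.add_comm, Function.iterate_add_apply]
  set q := (step P)^[t] ([c], init x y) with hq
  obtain ⟨K, σ⟩ := q
  simp only at h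
  subst h
  exact step_halt P σ s

/-- The general theorem, with unary numbers. -/
theorem general {S : Lang} (hO : InP P O) (hS : PSelective O S) (hH : TuringHard O S)
    (hE : UniformP P E) {A : Lang} (hA : InNP O A) :
    ∃ (g : List Bool × List Unit → Bool) (e : ℕ), PTime P g ∧ ∀ (x : List Bool) (M : List Unit),
      (∃ i ≤ M.length, errors S (E i) ((x.length + 2) ^ e) ≤ M.length) → g (x, M) = A x := by
  obtain ⟨d, k, _, hd⟩ := hA
  obtain ⟨f, hf, hsel⟩ := selector (ptime_of_inP hO) hS
  obtain ⟨c, l, hc⟩ := exists_search hH d k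
  obtain ⟨e, he⟩ := exists_len c l
  refine ⟨algo O f E c l d k, e, ptime_algo (ptime_of_inP hO) hf (family hE) d k,
    fun x M => ?_⟩
  rintro ⟨i, hi, hEi⟩
  rw [Bool.eq_iff_iff, algo_iff hsel (hc x) (he x) hi hEi, hd x]
  exact exists_congr fun y => wit_iff

/-- The case of polynomially many errors. -/
theorem poly_case {S : Lang} (hO : InP P O) (hS : PSelective O S) (hH : TuringHard O S)
    (hE : UniformP P E)
    (h : ∃ k, ∀ n, ∃ i ≤ (n + 2) ^ k, errors S (E i) n ≤ (n + 2) ^ k) {A : Lang}
    (hA : InNP O A) : InP P A := by
  obtain ⟨g, e, hg, hg2⟩ := general hO hS hH hE hA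
  obtain ⟨k, hk⟩ := h
  have hN : PTime P (fun x : List Bool =>
      (x, List.replicate (((x.length + 2) ^ e + 2) ^ k) ())) :=
    PTime.id.pair ((((UPoly.tb e).add (UPoly.const 2)).pow k).comp PTime.id)
  refine inP_of ((hg.comp hN).of_eq fun x => ?_)
  obtain ⟨i, hi, hi2⟩ := hk ((x.length + 2) ^ e)
  apply hg2
  rw [List.length_replicate]
  exact ⟨i, hi, hi2⟩

theorem errors_mono {S E : Lang} {n m : ℕ} (h : n ≤ m) : errors S E n ≤ errors S E m := by
  unfold errors
  have : Finite {y : List Bool // y.length ≤ m ∧ S y ≠ E y} :=
    Set.Finite.subset (List.finite_length_le Bool m) fun y hy => hy.1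
  exact Nat.card_le_card_of_injective (fun t : {y : List Bool // y.length ≤ n ∧ S y ≠ E y} =>
    (⟨t.1, t.2.1.trans h, t.2.2⟩ : {y : List Bool // y.length ≤ m ∧ S y ≠ E y})) (by
      intro a b hab
      apply Subtype.ext
      exact congrArg (fun z : {y : List Bool // y.length ≤ m ∧ S y ≠ E y} => z.1) hab)

/-- The quantitative version, on the machine. -/
theorem machine_case {S : Lang} (hO : InP P O) (hS : PSelective O S) (hH : TuringHard O S)
    (hE : UniformP P E) {A : Lang} (hA : InNP O A) :
    ∃ (c : Cmd) (k : ℕ), ∀ (x : List Bool) (m : ℕ),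
      Halts P c x (List.replicate m true) ((x.length + m + 2) ^ k) ∧
      ((∃ i ≤ m, errors S (E i) ((x.length + 2) ^ k) ≤ m) →
        (Accepts P c x (List.replicate m true) ((x.length + m + 2) ^ k) ↔ A x = true)) := by
  obtain ⟨g, e, hg, hg2⟩ := general hO hS hH hE hA
  have hF : PTime P (fun p : List Bool × List Bool => [g (p.1, ulen p.2)]) :=
    PTime.cons (hg.comp (PTime.id.fst.pair (PTime.ulen PTime.id.snd))) (PTime.const _)
  obtain ⟨c, k, h⟩ := two_inputs hF
  refine ⟨c, max k e, fun x m => ?_⟩
  obtain ⟨h1, h2⟩ := h x (List.replicate m true)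
  rw [List.length_replicate] at h1 h2
  have hle : (x.length + m + 2) ^ k ≤ (x.length + m + 2) ^ max k e :=
    Nat.pow_le_pow_right (by omega) (le_max_left _ _)
  have hst := NE_run_stable h1 hle
  have h3 : Halts P c x (List.replicate m true) ((x.length + m + 2) ^ max k e) := by
    unfold Halts at h1 ⊢
    rw [hst]
    exact h1
  refine ⟨h3, ?_⟩
  rintro ⟨i, hi, hi2⟩
  unfold Accepts
  rw [hst, h2]
  have h4 : ulen (List.replicate m true) = List.replicate m () := by
    rw [ulen_eq, List.length_replicate]
  have h5 : errors S (E i) ((x.length + 2) ^ e) ≤ m :=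
    (errors_mono (Nat.pow_le_pow_right (by omega) (le_max_right k e))).trans hi2
  have h6 := hg2 x (List.replicate m ()) (by
    rw [List.length_replicate]
    exact ⟨i, hi, h5⟩)
  rw [h4, h6]
  unfold Halts at h1
  simp [h1]

/-! ### special cases -/

theorem inP_self (O : Lang) : InP O O := inP_of (PTime.ask (O := O) PTime.id)

theorem inP_join (O E : Lang) : InP (join O E) O :=
  inP_of (PTime.ask (O := O) PTime.id).lift

/-- The constant family of a language in `P`. -/
theorem uniform_of_inP {P E : Lang} (hE : InP P E) : UniformP P (fun _ => E) := by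
  have hF : PTime P (fun p : List Bool × List Bool => [E p.1]) :=
    PTime.cons ((ptime_of_inP hE).comp PTime.id.fst) (PTime.const _)
  obtain ⟨c, k, h⟩ := two_inputs hF
  refine ⟨c, k, fun i y => ?_⟩
  obtain ⟨h1, h2⟩ := h y (List.replicate i true)
  rw [List.length_replicate] at h1 h2
  refine ⟨h1, ?_⟩
  unfold Accepts
  rw [h2]
  unfold Halts at h1
  simp [h1]

theorem inP_right (O E : Lang) : InP (join O E) E := inP_of (PTime.askR PTime.id)

end Pool.Agent.PCL
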