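import Mathlib

/-!
# Cuts of finite sets of strings (MP_5d94c0_lc)

Combinatorics for p-selective sets: `f` is a selector for `S`, finite lists are sorted by insertion
with `f`, so that `S` is an initial segment, and only few cuts of a sorted list are compatible with
a set `E` that has few errors.
-/

set_option autoImplicit false

namespace Pool.Agent.PCL

/-- membership -/
def mem (L : List (List Bool)) (y : List Bool) : Bool := L.any fun z => decide (z = y)

@[simp] theorem mem_iff {L : List (List Bool)} {y : List Bool} : mem L y = true ↔ y ∈ L := by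
  unfold mem
  simp

theorem mem_false {L : List (List Bool)} {y : List Bool} : mem L y = false ↔ y ∉ L := by
  rw [← Bool.not_eq_true, mem_iff]

/-- insertion with the selector -/
def ins (f : List Bool → List Bool → List Bool) (x : List Bool) : List (List Bool) → List (List Bool)
  | [] => [x]
  | y :: L => if decide (f x y = x) = true then x :: y :: L else y :: ins f x L

/-- sorting with the selector, without repetitions -/
def srt (f : List Bool → List Bool → List Bool) (A : List (List Bool)) : List (List Bool) :=
  A.foldl (fun L x => if mem L x = true then L else ins f x L) []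

theorem mem_ins {f : List Bool → List Bool → List Bool} {x y : List Bool} {L : List (List Bool)} :
    y ∈ ins f x L ↔ y = x ∨ y ∈ L := by
  induction L with
  | nil => simp [ins]
  | cons a L ih =>
    rw [ins]
    split_ifs
    · simp
    · rw [List.mem_cons, ih, List.mem_cons]
      tauto

theorem nodup_ins {f : List Bool → List Bool → List Bool} {x : List Bool} {L : List (List Bool)}
    (hx : x ∉ L) (hL : L.Nodup) : (ins f x L).Nodup := by
  induction L with
  | nil => simp [ins]
  | cons a L ih =>
    rw [ins]
    rw [List.nodup_cons] at hL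
    rw [List.mem_cons, not_or] at hx
    split_ifs
    · rw [List.nodup_cons, List.nodup_cons, List.mem_cons, not_or]
      exact ⟨⟨hx.1, hx.2⟩, hL⟩
    · rw [List.nodup_cons, mem_ins, not_or]
      exact ⟨⟨fun h => hx.1 h.symm, hL.1⟩, ih hx.2 hL.2⟩

/-- `f` is a selector for `S`. -/
def Sel (f : List Bool → List Bool → List Bool) (S : List Bool → Bool) : Prop :=
  ∀ x y, (f x y = x ∨ f x y = y) ∧ ((S x = true ∨ S y = true) → S (f x y) = true)

theorem pairwise_ins {f : List Bool → List Bool → List Bool} {S : List Bool → Bool}
    (hf : Sel f S) {x : List Bool} {L : List (List Bool)}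
    (hL : L.Pairwise fun u v => S v = true → S u = true) :
    (ins f x L).Pairwise fun u v => S v = true → S u = true := by
  induction L with
  | nil => simp [ins]
  | cons a L ih =>
    rw [ins]
    rw [List.pairwise_cons] at hL
    split_ifs with h
    · rw [decide_eq_true_eq] at h
      have hxa : S a = true → S x = true := fun ha => by
        have := (hf x a).2 (Or.inr ha)
        rwa [h] at this
      rw [List.pairwise_cons]
      refine ⟨fun v hv hSv => ?_, List.pairwise_cons.2 hL⟩
      rcases List.mem_cons.1 hv with rfl | hv
      · exact hxa hSv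
      · exact hxa (hL.1 v hv hSv)
    · rw [decide_eq_true_eq] at h
      have hax : S x = true → S a = true := fun hx => by
        have := (hf x a).2 (Or.inl hx)
        rwa [(hf x a).1.resolve_left h] at this
      rw [List.pairwise_cons]
      refine ⟨fun v hv hSv => ?_, ih hL.2⟩
      rcases mem_ins.1 hv with rfl | hv
      · exact hax hSv
      · exact hL.1 v hv hSv

theorem srt_spec {f : List Bool → List Bool → List Bool} {S : List Bool → Bool} (hf : Sel f S)
    (A : List (List Bool)) :
    (∀ y, y ∈ srt f A ↔ y ∈ A) ∧ (srt f A).Nodup ∧
      (srt f A).Pairwise fun u v => S v = true → S u = true := by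
  have key : ∀ (A L : List (List Bool)), L.Nodup →
      (L.Pairwise fun u v => S v = true → S u = true) →
      (∀ y, y ∈ A.foldl (fun L x => if mem L x = true then L else ins f x L) L ↔
        y ∈ L ∨ y ∈ A) ∧
      (A.foldl (fun L x => if mem L x = true then L else ins f x L) L).Nodup ∧
      (A.foldl (fun L x => if mem L x = true then L else ins f x L) L).Pairwise
        fun u v => S v = true → S u = true := by
    intro A
    induction A with
    | nil => intro L h1 h2; exact ⟨fun y => by simp, h1, h2⟩
    | cons a A ih =>
      intro L h1 h2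
      rw [List.foldl_cons]
      by_cases ha : mem L a = true
      · rw [if_pos ha]
        obtain ⟨g1, g2, g3⟩ := ih L h1 h2
        refine ⟨fun y => ?_, g2, g3⟩
        rw [g1, List.mem_cons]
        rw [mem_iff] at ha
        constructor
        · rintro (h | h)
          · exact Or.inl h
          · exact Or.inr (Or.inr h)
        · rintro (h | h | h)
          · exact Or.inl h
          · subst h; exact Or.inl ha
          · exact Or.inr h
      · rw [if_neg ha]
        rw [mem_iff] at ha
        obtain ⟨g1, g2, g3⟩ := ih (ins f a L) (nodup_ins ha h1) (pairwise_ins hf h2)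
        refine ⟨fun y => ?_, g2, g3⟩
        rw [g1, mem_ins, List.mem_cons]
        tauto
  obtain ⟨g1, g2, g3⟩ := key A [] List.nodup_nil List.Pairwise.nil
  exact ⟨fun y => by unfold srt; rw [g1]; simp, g2, g3⟩

/-- In a sorted list, `S` is an initial segment. -/
theorem exists_cut {S : List Bool → Bool} {L : List (List Bool)}
    (hL : L.Pairwise fun u v => S v = true → S u = true) :
    ∃ t ≤ L.length, (∀ y ∈ L.take t, S y = true) ∧ ∀ y ∈ L.drop t, S y = false := by
  induction L with
  | nil => exact ⟨0, le_rfl, by simp, by simp⟩
  | cons a L ih =>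
    rw [List.pairwise_cons] at hL
    by_cases ha : S a = true
    · obtain ⟨t, ht, h1, h2⟩ := ih hL.2
      refine ⟨t + 1, by rw [List.length_cons]; omega, ?_, ?_⟩
      · rw [List.take_succ_cons]
        intro y hy
        rcases List.mem_cons.1 hy with rfl | hy
        · exact ha
        · exact h1 y hy
      · rw [List.drop_succ_cons]
        exact h2
    · refine ⟨0, Nat.zero_le _, by simp, ?_⟩
      intro y hy
      rw [List.drop_zero] at hy
      rw [← Bool.not_eq_true]
      intro hSy
      rcases List.mem_cons.1 hy with rfl | hy
      · exact ha hSy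
      · exact ha (hL.1 y hy hSy)

/-- the cuts of a list -/
def cuts (L : List (List Bool)) : List (List (List Bool) × List (List Bool)) :=
  (List.range (L.length + 1)).map fun t => (L.take t, L.drop t)

/-- the disagreements between a cut and `E` -/
def errs (E : List Bool → Bool) (c : List (List Bool) × List (List Bool)) : List (List Bool) :=
  (c.1.filter fun y => !E y) ++ c.2.filter fun y => E y

/-- the cuts with at most `m` disagreements with `E` -/
def cands (E : List Bool → Bool) (m : ℕ) (L : List (List Bool)) :
    List (List (List Bool) × List (List Bool)) :=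
  (cuts L).filter fun c => decide ((errs E c).length ≤ m)

theorem errs_diff (E : List Bool → Bool) (L : List (List Bool)) {s t : ℕ} (hst : s ≤ t)
    (ht : t ≤ L.length) :
    t - s ≤ (errs E (L.take s, L.drop s)).length + (errs E (L.take t, L.drop t)).length := by
  set M := (L.drop s).take (t - s) with hM
  have hlen : M.length = t - s := by
    rw [hM, List.length_take, List.length_drop]
    omega
  have h1 : L.take t = L.take s ++ M := by
    have : t = s + (t - s) := by omega
    rw [hM]
    conv_lhs => rw [this]
    rw [List.take_add]
  have h2 : L.drop s = M ++ L.drop t := by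
    have : L.drop t = (L.drop s).drop (t - s) := by
      rw [List.drop_drop]
      congr 1
      omega
    rw [this, hM, List.take_append_drop]
  have h3 : (M.filter fun y => !E y).length + (M.filter fun y => E y).length = M.length := by
    induction M with
    | nil => rfl
    | cons a M ih =>
      rw [List.filter_cons, List.filter_cons]
      cases E a <;> simp <;> omega
  unfold errs
  simp only [List.length_append]
  rw [h1, h2]
  simp only [List.filter_append, List.length_append]
  omega

theorem cands_length (E : List Bool → Bool) (m : ℕ) (L : List (List Bool)) :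
    (cands E m L).length ≤ 2 * m + 1 := by
  unfold cands cuts
  rw [List.filter_map, List.length_map]
  set P : ℕ → Bool := (fun c => decide ((errs E c).length ≤ m)) ∘
    fun t => (L.take t, L.drop t) with hP
  have h0 : ((List.range (L.length + 1)).filter P).length =
      ((Finset.range (L.length + 1)).filter fun t => P t = true).card := by
    rw [← List.toFinset_card_of_nodup (List.Nodup.filter _ List.nodup_range)]
    congr 1
    ext t
    simp
  rw [h0]
  by_cases hne : ((Finset.range (L.length + 1)).filter fun t => P t = true).Nonempty
  · set s := ((Finset.range (L.length + 1)).filter fun t => P t = true).min' hne with hs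
    have hsm := Finset.min'_mem _ hne
    rw [← hs, Finset.mem_filter, Finset.mem_range] at hsm
    have hsub : ((Finset.range (L.length + 1)).filter fun t => P t = true) ⊆
        Finset.Icc s (s + 2 * m) := by
      intro t ht
      have h1 : s ≤ t := Finset.min'_le _ _ ht
      rw [Finset.mem_filter, Finset.mem_range] at ht
      have h2 := errs_diff E L h1 (by omega)
      have h3 : (errs E (L.take s, L.drop s)).length ≤ m := by simpa [hP] using hsm.2
      have h4 : (errs E (L.take t, L.drop t)).length ≤ m := by simpa [hP] using ht.2
      rw [Finset.mem_Icc]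
      omega
    refine (Finset.card_le_card hsub).trans ?_
    rw [Nat.card_Icc]
    omega
  · rw [Finset.not_nonempty_iff_eq_empty] at hne
    rw [hne]
    simp

/-- the oracle given by a cut, and by `E` outside of the list -/
def orc (E : List Bool → Bool) (c : List (List Bool) × List (List Bool)) (y : List Bool) : Bool :=
  if mem c.1 y = true then true else if mem c.2 y = true then false else E y

/-- one round: try all cuts, and collect the strings that are asked -/
def rnd (f : List Bool → List Bool → List Bool) (E : ℕ → List Bool → Bool)
    (ask : (List Bool → Bool) → List (List Bool)) (m : ℕ) (A : List (List Bool)) :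
    List (List Bool) :=
  A ++ (List.range (m + 1)).flatMap fun i =>
    (cands (E i) m (srt f A)).flatMap fun c => ask (orc (E i) c)

variable {f : List Bool → List Bool → List Bool} {S : List Bool → Bool}
  {E : ℕ → List Bool → Bool} {ask : (List Bool → Bool) → List (List Bool)} {m n i : ℕ}

theorem rnd_len (hask : ∀ B, ∀ y ∈ ask B, y.length ≤ n) {A : List (List Bool)}
    (hA : ∀ y ∈ A, y.length ≤ n) : ∀ y ∈ rnd f E ask m A, y.length ≤ n := by
  intro y hy
  unfold rnd at hy
  rw [List.mem_append, List.mem_flatMap] at hy
  rcases hy with hy | ⟨i, _, hy⟩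
  · exact hA y hy
  · rw [List.mem_flatMap] at hy
    obtain ⟨c, _, hy⟩ := hy
    exact hask _ y hy

/-- the true cut -/
theorem true_cut (hf : Sel f S)
    (hD : ∀ T : Finset (List Bool), (∀ y ∈ T, y.length ≤ n ∧ S y ≠ E i y) → T.card ≤ m)
    {A : List (List Bool)} (hA : ∀ y ∈ A, y.length ≤ n) :
    ∃ c ∈ cands (E i) m (srt f A), (∀ y ∈ A, orc (E i) c y = S y) ∧
      ∀ y, y ∉ A → orc (E i) c y = E i y := by
  obtain ⟨h1, h2, h3⟩ := srt_spec hf A
  obtain ⟨t, ht, h4, h5⟩ := exists_cut h3
  set L := srt f A with hL
  have hsplit : ∀ y, y ∈ L ↔ y ∈ L.take t ∨ y ∈ L.drop t := fun y => by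
    conv_lhs => rw [← List.take_append_drop t L]
    rw [List.mem_append]
  refine ⟨(L.take t, L.drop t), ?_, ?_, ?_⟩
  · unfold cands cuts
    rw [List.mem_filter, List.mem_map]
    refine ⟨⟨t, List.mem_range.2 (by omega), rfl⟩, ?_⟩
    rw [decide_eq_true_eq]
    have hnd : (errs (E i) (L.take t, L.drop t)).Nodup := by
      have hs : (errs (E i) (L.take t, L.drop t)).Sublist L := by
        conv_rhs => rw [← List.take_append_drop t L]
        exact List.Sublist.append List.filter_sublist List.filter_sublist
      exact hs.nodup h2
    rw [← List.toFinset_card_of_nodup hnd]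
    apply hD
    intro y hy
    rw [List.mem_toFinset] at hy
    unfold errs at hy
    rw [List.mem_append, List.mem_filter, List.mem_filter] at hy
    rcases hy with ⟨g1, g2⟩ | ⟨g1, g2⟩
    · refine ⟨hA y ((h1 y).1 ((hsplit y).2 (Or.inl g1))), ?_⟩
      rw [h4 y g1]
      intro h
      rw [← h] at g2
      exact absurd g2 (by simp)
    · refine ⟨hA y ((h1 y).1 ((hsplit y).2 (Or.inr g1))), ?_⟩
      rw [h5 y g1]
      intro h
      rw [← h] at g2
      exact absurd g2 (by simp)
  · intro y hy
    have hyL := (h1 y).2 hy
    unfold orc
    by_cases g1 : y ∈ L.take t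
    · rw [if_pos (mem_iff.2 g1), h4 y g1]
    · have g2 : y ∈ L.drop t := ((hsplit y).1 hyL).resolve_left g1
      rw [if_neg (fun h => g1 (mem_iff.1 h)), if_pos (mem_iff.2 g2), h5 y g2]
  · intro y hy
    have hyL : y ∉ L := fun h => hy ((h1 y).1 h)
    unfold orc
    rw [if_neg (fun h => hyL ((hsplit y).2 (Or.inl (mem_iff.1 h)))),
      if_neg (fun h => hyL ((hsplit y).2 (Or.inr (mem_iff.1 h))))]

/-- After `m + 1` rounds, the run for the true cut is right. -/
theorem rounds (hf : Sel f S)
    (hD : ∀ T : Finset (List Bool), (∀ y ∈ T, y.length ≤ n ∧ S y ≠ E i y) → T.card ≤ m)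
    (hi : i ≤ m) (hask : ∀ B, ∀ y ∈ ask B, y.length ≤ n)
    (hcong : ∀ B B' : List Bool → Bool, (∀ y ∈ ask B, B y = B' y) → ask B' = ask B) :
    ∃ c ∈ cands (E i) m (srt f ((rnd f E ask m)^[m + 1] [])),
      ∀ y ∈ ask S, orc (E i) c y = S y := by
  set A : ℕ → List (List Bool) := fun j => (rnd f E ask m)^[j] [] with hAdef
  have hsucc : ∀ j, A (j + 1) = rnd f E ask m (A j) := fun j => by
    simp only [hAdef]
    rw [Function.iterate_succ_apply']
  have hlen : ∀ j, ∀ y ∈ A j, y.length ≤ n := by
    intro j
    induction j with
    | zero => intro y hy; simp [hAdef] at hy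
    | succ j ih => rw [hsucc]; exact rnd_len hask ih
  choose c hc1 hc2 hc3 using fun j => true_cut (E := E) hf hD (hlen j)
  have hsub : ∀ j, ∀ y ∈ A j, y ∈ A (j + 1) := fun j y hy => by
    rw [hsucc]; unfold rnd; exact List.mem_append_left _ hy
  have hnew : ∀ j, ∀ y ∈ ask (orc (E i) (c j)), y ∈ A (j + 1) := fun j y hy => by
    rw [hsucc]
    unfold rnd
    refine List.mem_append_right _ (List.mem_flatMap.2 ⟨i, List.mem_range.2 (by omega), ?_⟩)
    exact List.mem_flatMap.2 ⟨c j, hc1 j, hy⟩
  -- good rounds
  have hpers : ∀ j, (∀ y ∈ ask S, orc (E i) (c j) y = S y) →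
      ∀ y ∈ ask S, orc (E i) (c (j + 1)) y = S y := by
    intro j hj y hy
    have h1 : ask (orc (E i) (c j)) = ask S := hcong S _ fun y hy => (hj y hy).symm
    exact hc2 (j + 1) y (hnew j y (by rw [h1]; exact hy))
  have hpers' : ∀ j k, j ≤ k → (∀ y ∈ ask S, orc (E i) (c j) y = S y) →
      ∀ y ∈ ask S, orc (E i) (c k) y = S y := by
    intro j k hjk hj
    induction k, hjk using Nat.le_induction with
    | base => exact hj
    | succ k _ ih => exact hpers k ih
  by_contra hcon
  push Not at hcon
  have hbad : ∀ j ≤ m + 1, ¬ ∀ y ∈ ask S, orc (E i) (c j) y = S y := by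
    intro j hj h
    obtain ⟨y, hy, hy'⟩ := hcon (c (m + 1)) (hc1 (m + 1))
    exact hy' (hpers' j (m + 1) hj h y hy)
  -- each bad round finds a new error
  have hcount : ∀ j ≤ m + 1, j ≤ ((A j).toFinset.filter fun y => S y ≠ E i y).card := by
    intro j
    induction j with
    | zero => intro _; exact Nat.zero_le _
    | succ j ih =>
      intro hj
      have h1 := ih (by omega)
      have h2 : ¬ ∀ y ∈ ask (orc (E i) (c j)), orc (E i) (c j) y = S y := by
        intro h
        have h3 : ask S = ask (orc (E i) (c j)) := hcong _ _ h
        exact hbad j (by omega) (by rw [h3]; exact h)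
      push Not at h2
      obtain ⟨y, hy, hne⟩ := h2
      have hyA : y ∉ A j := fun h => hne (hc2 j y h)
      have hyE : S y ≠ E i y := by
        rw [← hc3 j y hyA]
        exact fun h => hne h.symm
      have hlt : ((A j).toFinset.filter fun y => S y ≠ E i y).card <
          ((A (j + 1)).toFinset.filter fun y => S y ≠ E i y).card := by
        apply Finset.card_lt_card
        rw [Finset.ssubset_iff_of_subset]
        · refine ⟨y, ?_, ?_⟩
          · rw [Finset.mem_filter, List.mem_toFinset]
            exact ⟨hnew j y hy, hyE⟩
          · rw [Finset.mem_filter, List.mem_toFinset]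
            exact fun h => hyA h.1
        · intro z hz
          rw [Finset.mem_filter, List.mem_toFinset] at hz ⊢
          exact ⟨hsub j z hz.1, hz.2⟩
      omega
  have h1 := hcount (m + 1) le_rfl
  have h2 := hD ((A (m + 1)).toFinset.filter fun y => S y ≠ E i y) (fun y hy => by
    rw [Finset.mem_filter, List.mem_toFinset] at hy
    exact ⟨hlen _ y hy.1, hy.2⟩)
  omega

end Pool.Agent.PCL
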