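import Pool.Agent.Lib_helper78.PCL.A
import Pool.Agent.Lib_helper61.PSL.Gen
import Pool.Agent.Lib_helper40.TDB.Prog

/-!
# Simulation of oracle programs, with a list of the strings that are asked (MP_5d94c0_lc)
-/

set_option autoImplicit false
set_option linter.unusedSectionVars false

namespace Pool.Agent.PCL

open Pool.Agent.CK Pool.Agent.CKP Pool.Agent.PSL

variable {O P : Lang} {γ : Type} [ToD γ]

/-! ### the strings asked -/

/-- the string about which the second part of a joined oracle is asked in the next step -/
def qOf (q : List D × List (List Bool)) : List (List Bool) :=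
  lcase q.1 [] fun c _ => if tagIs c 6 = true then
    lcase (getU q.2 (regU c)) [] (fun b y => if b = true then [y] else []) else []

theorem stepU_congr {B B' : Lang} {q : List D × List (List Bool)}
    (h : ∀ y ∈ qOf q, B y = B' y) : stepU (join O B) q = stepU (join O B') q := by
  obtain ⟨K, T⟩ := q
  cases K with
  | nil => rfl
  | cons c K =>
    show stepC (join O B) c K T = stepC (join O B') c K T
    have hask : tagIs c 6 = true →
        join O B (getU T (regU c)) = join O B' (getU T (regU c)) := by
      intro h6
      have h' : ∀ y ∈ (if tagIs c 6 = true then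
          lcase (getU T (regU c)) [] (fun b y => if b = true then [y] else [])
          else ([] : List (List Bool))), B y = B' y := h
      rw [if_pos h6] at h'
      cases hw : getU T (regU c) with
      | nil => rfl
      | cons b y =>
        rw [hw] at h'
        cases b with
        | false => rfl
        | true => exact h' y (by simp)
    unfold stepC
    by_cases h6 : tagIs c 6 = true
    · rw [hask h6]
    · simp only [if_neg h6]

/-- the strings about which the second part of a joined oracle is asked -/
def askU (P : Lang) (c : D) (x : List Bool) (N : List Unit) : List (List Bool) :=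
  (rangeU N).flatMap fun u => qOf (runU P ([c], [x, []]) u)

theorem runU_replicate_succ (P : Lang) (q : List D × List (List Bool)) (n : ℕ) :
    runU P q (List.replicate (n + 1) ()) = stepU P (runU P q (List.replicate n ())) := by
  unfold runU
  rw [List.replicate_succ', List.foldl_append]
  rfl

theorem mem_askU {P : Lang} {c : D} {x : List Bool} {n : ℕ} {y : List Bool} :
    y ∈ askU P c x (List.replicate n ()) ↔
      ∃ j < n, y ∈ qOf (runU P ([c], [x, []]) (List.replicate j ())) := by
  unfold askU
  rw [List.mem_flatMap, rangeU_replicate]
  constructor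
  · rintro ⟨u, hu, hy⟩
    rw [List.mem_map] at hu
    obtain ⟨j, hj, rfl⟩ := hu
    exact ⟨j, List.mem_range.1 hj, hy⟩
  · rintro ⟨j, hj, hy⟩
    exact ⟨_, List.mem_map.2 ⟨j, List.mem_range.2 hj, rfl⟩, hy⟩

theorem runU_congr {B B' : Lang} {c : D} {x : List Bool} {n : ℕ}
    (h : ∀ y ∈ askU (join O B) c x (List.replicate n ()), B y = B' y) : ∀ j ≤ n,
    runU (join O B') ([c], [x, []]) (List.replicate j ()) =
      runU (join O B) ([c], [x, []]) (List.replicate j ()) := by
  intro j
  induction j with
  | zero => intro _; rfl
  | succ j ih =>
    intro hj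
    rw [runU_replicate_succ, runU_replicate_succ, ih (by omega)]
    exact (stepU_congr fun y hy => h y (mem_askU.2 ⟨j, by omega, hy⟩)).symm

theorem askU_congr {B B' : Lang} {c : D} {x : List Bool} {n : ℕ}
    (h : ∀ y ∈ askU (join O B) c x (List.replicate n ()), B y = B' y) :
    askU (join O B') c x (List.replicate n ()) = askU (join O B) c x (List.replicate n ()) := by
  unfold askU
  rw [rangeU_replicate, List.flatMap_def, List.flatMap_def]
  congr 1
  apply List.map_congr_left
  intro u hu
  rw [List.mem_map] at hu
  obtain ⟨j, hj, rfl⟩ := hu
  rw [runU_congr h j (by have := List.mem_range.1 hj; omega)]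

/-! ### sizes -/

theorem sz_getU (T : List (List Bool)) (r : List D) : sz (getU T r) ≤ sz T := by
  unfold getU
  by_cases h : r.length < T.length
  · rw [List.getD_eq_getElem _ _ h]
    exact sz_le_of_mem (List.getElem_mem h)
  · rw [List.getD_eq_default _ _ (by omega)]
    have := sz_pos T
    rw [sz_nil]
    omega

theorem sz_qOf (q : List D × List (List Bool)) :
    (∀ y ∈ qOf q, sz y ≤ sz q.2) ∧ (qOf q).length ≤ 1 := by
  obtain ⟨K, T⟩ := q
  cases K with
  | nil => exact ⟨by simp [qOf], by simp [qOf]⟩
  | cons c K =>
    show (∀ y ∈ (if tagIs c 6 = true then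
          lcase (getU T (regU c)) [] (fun b y => if b = true then [y] else [])
          else ([] : List (List Bool))), sz y ≤ sz T) ∧ (if tagIs c 6 = true then
          lcase (getU T (regU c)) [] (fun b y => if b = true then [y] else [])
          else ([] : List (List Bool))).length ≤ 1
    split_ifs with h6
    · have h1 := sz_getU T (regU c)
      cases hw : getU T (regU c) with
      | nil => simp
      | cons b y =>
        rw [hw, sz_cons] at h1
        cases b with
        | false => simp
        | true =>
          simp only [lcase_cons, if_true]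
          refine ⟨fun z hz => ?_, by simp⟩
          rw [List.mem_singleton] at hz
          subst hz
          omega
    · simp

/-- the bound for the strings asked -/
def kB (c : D) (x : List Bool) (n : ℕ) : ℕ := sz x + 4 + n * (2 * sz c + 8)

theorem sz_runU (P : Lang) (c : D) (x : List Bool) (j : ℕ) :
    sz (runU P ([c], [x, []]) (List.replicate j ())).2 ≤ kB c x j := by
  have h := (runU_bound (O := P) (sz c) (List.replicate j ()) ([c], [x, []]) (by
    intro d hd
    simp only [List.mem_singleton] at hd
    rw [hd])).2.2
  rw [List.length_replicate] at h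
  unfold kB
  have h1 : sz [x, []] = sz x + 4 := by
    rw [sz_cons, sz_cons, sz_nil, sz_nil]
  rw [h1] at h
  exact h

theorem kB_mono (c : D) (x : List Bool) {j n : ℕ} (h : j ≤ n) : kB c x j ≤ kB c x n := by
  unfold kB
  have := Nat.mul_le_mul_right (2 * sz c + 8) h
  omega

theorem askU_len {P : Lang} {c : D} {x : List Bool} {n : ℕ} :
    ∀ y ∈ askU P c x (List.replicate n ()), sz y ≤ kB c x n := by
  intro y hy
  obtain ⟨j, hj, hy⟩ := mem_askU.1 hy
  exact ((sz_qOf _).1 y hy).trans ((sz_runU P c x j).trans (kB_mono c x hj.le))

theorem length_flatMap_le {α β : Type} {l : List α} {g : α → List β} {b : ℕ}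
    (h : ∀ a ∈ l, (g a).length ≤ b) : (l.flatMap g).length ≤ l.length * b := by
  induction l with
  | nil => simp
  | cons a t ih =>
    rw [List.flatMap_cons, List.length_append, List.length_cons, Nat.succ_mul]
    have h1 := h a (by simp)
    have h2 := ih fun c hc => h c (by simp [hc])
    omega

theorem sz_flatMap_le {α β : Type} [ToD β] {l : List α} {g : α → List β} {b : ℕ}
    (h : ∀ a ∈ l, sz (g a) ≤ b) : sz (l.flatMap g) ≤ l.length * b + 1 := by
  have hsz : ∀ l r : List β, sz (l ++ r) ≤ sz l + sz r := by
    intro l r
    induction l with
    | nil => simp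
    | cons a t ih => rw [List.cons_append, sz_cons, sz_cons]; omega
  induction l with
  | nil => simp
  | cons a t ih =>
    rw [List.flatMap_cons, List.length_cons, Nat.succ_mul]
    have h1 := h a (by simp)
    have h2 := ih fun c hc => h c (by simp [hc])
    have h3 := hsz (g a) (t.flatMap g)
    omega

theorem sz_askU {P : Lang} {c : D} {x : List Bool} {n : ℕ} :
    sz (askU P c x (List.replicate n ())) ≤ n * (kB c x n + 2) + 1 := by
  unfold askU
  rw [rangeU_replicate]
  refine (sz_flatMap_le (b := kB c x n + 2) ?_).trans ?_
  · intro u hu
    rw [List.mem_map] at hu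
    obtain ⟨j, hj, rfl⟩ := hu
    have hj' := List.mem_range.1 hj
    obtain ⟨h1, h2⟩ := sz_qOf (runU P ([c], [x, []]) (List.replicate j ()))
    have h3 := (sz_runU P c x j).trans (kB_mono c x hj'.le)
    generalize qOf (runU P ([c], [x, []]) (List.replicate j ())) = l at h1 h2
    match l, h1, h2 with
    | [], _, _ => rw [sz_nil]; omega
    | [y], h1, _ =>
      have h4 := h1 y (by simp)
      rw [sz_cons, sz_nil]
      omega
  · rw [List.length_map, List.length_range]

/-! ### polynomial time -/

theorem ptime_qOf {q : γ → List D × List (List Bool)} (hq : PTime P q) :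
    PTime P (fun x => qOf (q x)) := by
  unfold qOf
  refine PTime.lcase (l := fun x => (q x).1) (n := fun _ => ([] : List (List Bool)))
    (c := fun x c _ => if tagIs c 6 = true then
      lcase (getU (q x).2 (regU c)) [] (fun b y => if b = true then [y] else []) else [])
    hq.fst (PTime.const _) ?_
  have hc : PTime P (fun p : γ × D × List D => p.2.1) := PTime.id.snd.fst
  have hT : PTime P (fun p : γ × D × List D => (q p.1).2) := (hq.comp PTime.id.fst).snd
  have hr : PTime P (fun p : γ × D × List D => regU p.2.1) := hc.cdr.car.toList
  have hg := PTime.getU hT hr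
  refine PTime.ite (hc.tagIs 6) ?_ (PTime.const _)
  exact PTime.lcase (l := fun p : γ × D × List D => getU (q p.1).2 (regU p.2.1))
    (n := fun _ => ([] : List (List Bool)))
    (c := fun _ (b : Bool) (y : List Bool) => if b = true then [y] else []) hg (PTime.const _)
    (PTime.ite PTime.id.snd.fst (PTime.cons PTime.id.snd.snd (PTime.const _)) (PTime.const _))

/-- the strings asked, for a data dependent oracle -/
theorem ptime_askU {Q : γ → Lang} (hQ : PTime P (fun p : γ × List Bool => Q p.1 p.2)) (c : D)
    {x : γ → List Bool} {N : γ → List Unit} (hx : PTime P x) (hN : PTime P N) :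
    PTime P (fun a => askU (Q a) c (x a) (N a)) := by
  unfold askU
  refine PTime.flatMap (f := fun a u => qOf (runU (Q a) ([c], [x a, []]) u)) (PTime.rangeU hN) ?_
  refine ptime_qOf (q := fun p : γ × List Unit => runU (Q p.1) ([c], [x p.1, []]) p.2) ?_
  refine ptime_runG (O := P) (P := fun p : γ × List Unit => Q p.1)
    (c := fun _ => c) (S := fun p : γ × List Unit => [x p.1, []]) (N := fun p => p.2) ?_
    (PTime.const c) (PTime.cons (hx.comp PTime.id.fst) (PTime.const _)) PTime.id.snd
  exact hQ.comp (PTime.id.fst.fst.pair PTime.id.snd)

/-- the output, for a data dependent oracle -/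
theorem ptime_outG {Q : γ → Lang} (hQ : PTime P (fun p : γ × List Bool => Q p.1 p.2)) (c : D)
    {x : γ → List Bool} {N : γ → List Unit} (hx : PTime P x) (hN : PTime P N) :
    PTime P (fun a => outU (Q a) c (x a) [] (N a)) := by
  unfold outU
  exact PTime.headD (ptime_runG hQ (PTime.const c)
    (PTime.cons hx (PTime.const _)) hN).snd (PTime.const [])

theorem ptime_mem {L : γ → List (List Bool)} {y : γ → List Bool} (hL : PTime P L)
    (hy : PTime P y) : PTime P (fun a => mem (L a) (y a)) := by
  unfold mem
  exact PTime.any (f := fun a z => decide (z = y a)) hL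
    (TD.ptime_list_eq PTime.id.snd (hy.comp PTime.id.fst))

theorem sz_ins (f : List Bool → List Bool → List Bool) (x : List Bool) (L : List (List Bool)) :
    sz (ins f x L) = sz L + sz x + 1 := by
  induction L with
  | nil => rw [ins, sz_cons, sz_nil]; omega
  | cons a L ih =>
    rw [ins]
    split_ifs
    · rw [sz_cons, sz_cons]; omega
    · rw [sz_cons, ih, sz_cons]; omega

theorem ins_eq (f : List Bool → List Bool → List Bool) (x : List Bool) (L : List (List Bool)) :
    ins f x L = List.rec (motive := fun _ => List (List Bool)) [x]
      (fun a t r => if decide (f x a = x) = true then x :: a :: t else a :: r) L := by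
  induction L with
  | nil => rfl
  | cons a L ih => rw [ins, ih]

theorem ptime_ins {f : List Bool → List Bool → List Bool}
    (hf : PTime P (fun p : List Bool × List Bool => f p.1 p.2)) {x : γ → List Bool}
    {L : γ → List (List Bool)} (hx : PTime P x) (hL : PTime P L) :
    PTime P (fun a => ins f (x a) (L a)) := by
  obtain ⟨Px, hPx⟩ := hx.size_le
  obtain ⟨PL, hPL⟩ := hL.size_le
  have h := PTime.listRec_add (γ := γ) (α := List Bool) (β := List (List Bool)) (l := L)
    (n := fun a => [x a])
    (c := fun g a t r => if decide (f (x g) a = x g) = true then x g :: a :: t else a :: r) hL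
    (PTime.cons hx (PTime.const _)) (by
      have g1 : PTime P (fun p : γ × List Bool × List (List Bool) × List (List Bool) => x p.1) :=
        hx.comp PTime.id.fst
      have g2 : PTime P (fun p : γ × List Bool × List (List Bool) × List (List Bool) => p.2.1) :=
        PTime.id.snd.fst
      exact PTime.ite (TD.ptime_list_eq (hf.comp (g1.pair g2)) g1)
        (PTime.cons g1 (PTime.cons g2 PTime.id.snd.snd.fst))
        (PTime.cons g2 PTime.id.snd.snd.snd)) (Px + PL + 1) (by
      intro g b a t hat
      have h1 := sz_le_of_suffix hat
      have h2 := hPx g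
      have h3 := hPL g
      rw [sz_cons] at h1
      simp only [Polynomial.eval_add, eval_one']
      split_ifs
      · rw [sz_cons, sz_cons]
        omega
      · rw [sz_cons]
        omega)
  exact h.of_eq fun a => (ins_eq f (x a) (L a)).symm

theorem ptime_srt {f : List Bool → List Bool → List Bool}
    (hf : PTime P (fun p : List Bool × List Bool => f p.1 p.2)) {A : γ → List (List Bool)}
    (hA : PTime P A) : PTime P (fun a => srt f (A a)) := by
  obtain ⟨PA, hPA⟩ := hA.size_le
  unfold srt
  refine PTime.foldl_add (l := A) (i := fun _ => ([] : List (List Bool)))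
    (s := fun _ L x => if mem L x = true then L else ins f x L) hA (PTime.const _) ?_ (PA + 1) ?_
  · exact PTime.ite (ptime_mem PTime.id.snd.fst PTime.id.snd.snd) PTime.id.snd.fst
      (ptime_ins hf PTime.id.snd.snd PTime.id.snd.fst)
  · intro g L a ha
    have h1 := (sz_le_of_mem ha).trans (hPA g)
    simp only [Polynomial.eval_add, eval_one']
    split_ifs
    · omega
    · rw [sz_ins]
      omega

theorem ptime_take {u : γ → List Unit} {L : γ → List (List Bool)} (hu : PTime P u)
    (hL : PTime P L) : PTime P (fun a => (L a).take (u a).length) := by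
  have h := ((hu.udrop hL).udrop hL.reverse).reverse
  refine h.of_eq fun a => ?_
  rw [udrop_eq, udrop_eq, List.length_drop]
  generalize L a = l
  generalize (u a).length = k
  by_cases hk : k ≤ l.length
  · rw [← List.reverse_take (i := k)]
    simp
  · rw [show l.length - k = 0 by omega, List.drop_zero, List.reverse_reverse,
      List.take_of_length_le (by omega)]

theorem cuts_eq (L : List (List Bool)) :
    cuts L = (rangeU (() :: ulen L)).map fun u => (L.take u.length, L.drop u.length) := by
  have h : (() :: ulen L : List Unit) = List.replicate (L.length + 1) () := by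
    rw [ulen_eq, List.replicate_succ]
  rw [h, rangeU_replicate, List.map_map]
  unfold cuts
  apply List.map_congr_left
  intro t _
  simp

theorem ptime_cuts {L : γ → List (List Bool)} (hL : PTime P L) :
    PTime P (fun a => cuts (L a)) := by
  have h := PTime.map (l := fun a => rangeU (() :: ulen (L a)))
    (f := fun a u => ((L a).take u.length, (L a).drop u.length))
    (PTime.rangeU (PTime.cons (PTime.const ()) hL.ulen)) (by
      have h1 : PTime P (fun p : γ × List Unit => L p.1) := hL.comp PTime.id.fst
      have h2 : PTime P (fun p : γ × List Unit => p.2) := PTime.id.snd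
      exact (ptime_take h2 h1).pair ((h2.udrop h1).of_eq fun p => udrop_eq _ _))
  exact h.of_eq fun a => (cuts_eq (L a)).symm

theorem ptime_orc {E : γ → Lang} (hE : PTime P (fun p : γ × List Bool => E p.1 p.2))
    {c : γ → List (List Bool) × List (List Bool)} (hc : PTime P c) :
    PTime P (fun p : γ × List Bool => orc (E p.1) (c p.1) p.2) := by
  unfold orc
  have h1 : PTime P (fun p : γ × List Bool => c p.1) := hc.comp PTime.id.fst
  exact PTime.ite (ptime_mem h1.fst PTime.id.snd) (PTime.const true)
    (PTime.ite (ptime_mem h1.snd PTime.id.snd) (PTime.const false) hE)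

theorem ptime_cands {E : γ → Lang} (hE : PTime P (fun p : γ × List Bool => E p.1 p.2))
    {M : γ → List Unit} (hM : PTime P M) {L : γ → List (List Bool)} (hL : PTime P L) :
    PTime P (fun a => cands (E a) (M a).length (L a)) := by
  have h := PTime.filter (l := fun a => cuts (L a))
    (f := fun a c => (udrop (M a) (errs (E a) c)).isEmpty) (ptime_cuts hL) (by
      refine PTime.isNil ((hM.comp PTime.id.fst).udrop ?_)
      unfold errs
      have hE' : PTime P (fun p : (γ × (List (List Bool) × List (List Bool))) × List Bool =>
          E p.1.1 p.2) := hE.comp (PTime.id.fst.fst.pair PTime.id.snd)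
      exact PTime.append
        (PTime.filter (f := fun (p : γ × (List (List Bool) × List (List Bool))) y => !E p.1 y)
          PTime.id.snd.fst hE'.not)
        (PTime.filter (f := fun (p : γ × (List (List Bool) × List (List Bool))) y => E p.1 y)
          PTime.id.snd.snd hE'))
  refine h.of_eq fun a => ?_
  unfold cands
  congr 1
  funext c
  rw [udrop_eq, Bool.eq_iff_iff, List.isEmpty_iff, decide_eq_true_eq, List.drop_eq_nil_iff]

end Pool.Agent.PCL
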